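import Mathlib
import Pool.Agent.H322R2.Ev

/-!
Field theory for plane models of coverings: a primitive element with a small coefficient, and the
kernel of the evaluation at a point of a plane curve.
-/

open Polynomial IntermediateField

set_option autoImplicit false

namespace Pool.Agent.V8H28.PV

open Pool.Agent.H322R2

lemma exists_prim {K M : Type*} [Field K] [Field M] [Algebra K M] [CharZero K] [CharZero M]
    [IsAlgClosed M] (b z : M) (hb : IsIntegral K b) (hz : IsIntegral K z) (m n : ℕ)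
    (hm : (minpoly K b).natDegree ≤ m) (hn : (minpoly K z).natDegree ≤ n) :
    ∃ T : ℕ, T ≤ m * n ∧ z ∈ K⟮b + T * z⟯ := by
  classical
  obtain ⟨Bad, hBad⟩ : ∃ Bad : Finset M, Bad = ((((minpoly K b).aroots M).toFinset ×ˢ
    ((minpoly K z).aroots M).toFinset).image (fun p => (p.1 - b) / (z - p.2))) := ⟨_, rfl⟩
  have hcard : Bad.card ≤ m * n := by
    rw [hBad]
    refine Finset.card_image_le.trans ?_
    rw [Finset.card_product]
    apply Nat.mul_le_mul
    · refine (Multiset.toFinset_card_le _).trans ((card_roots' _).trans ?_)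
      exact natDegree_map_le.trans hm
    · refine (Multiset.toFinset_card_le _).trans ((card_roots' _).trans ?_)
      exact natDegree_map_le.trans hn
  obtain ⟨T, hT, hTB⟩ : ∃ T ∈ Finset.range (m * n + 1), ((T : ℕ) : M) ∉ Bad := by
    by_contra hcon
    push Not at hcon
    have h1 : (Finset.range (m * n + 1)).card ≤ Bad.card := by
      apply Finset.card_le_card_of_injOn (fun T : ℕ => (T : M))
      · intro T hT
        exact hcon T hT
      · intro a _ b _ h
        exact Nat.cast_injective h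
    rw [Finset.card_range] at h1
    omega
  refine ⟨T, by rw [Finset.mem_range] at hT; omega, ?_⟩
  obtain ⟨ω, hω⟩ : ∃ ω, ω = b + T * z := ⟨_, rfl⟩
  rw [← hω]
  by_contra hcon
  have hz1 : IsIntegral K⟮ω⟯ z := hz.tower_top
  have hμ : 2 ≤ (minpoly K⟮ω⟯ z).natDegree := by
    have h1 := minpoly.natDegree_pos hz1
    by_contra h2
    have h3 : (minpoly K⟮ω⟯ z).natDegree = 1 := by omega
    have h4 := (minpoly.natDegree_eq_one_iff (A := K⟮ω⟯) (x := z)).1 h3
    obtain ⟨w, hw⟩ := h4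
    exact hcon (by rw [← hw]; exact w.2)
  have hsep : (minpoly K⟮ω⟯ z).Separable := (minpoly.irreducible hz1).separable
  have hroots : Multiset.card ((minpoly K⟮ω⟯ z).aroots M) = (minpoly K⟮ω⟯ z).natDegree := by
    rw [aroots_def, ← (IsAlgClosed.splits _).natDegree_eq_card_roots, natDegree_map]
  have hnodup : ((minpoly K⟮ω⟯ z).aroots M).Nodup := nodup_roots (hsep.map)
  have hzr : z ∈ (minpoly K⟮ω⟯ z).aroots M := by
    rw [mem_aroots]
    exact ⟨minpoly.ne_zero hz1, minpoly.aeval _ _⟩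
  obtain ⟨z', hz', hne⟩ : ∃ z' ∈ (minpoly K⟮ω⟯ z).aroots M, z' ≠ z := by
    by_contra hc
    push Not at hc
    have h1 : (minpoly K⟮ω⟯ z).aroots M ≤ {z} := by
      rw [Multiset.le_iff_subset hnodup]
      intro w hw
      rw [hc w hw]
      simp
    have h2 := Multiset.card_le_card h1
    rw [hroots] at h2
    simp at h2
    omega
  rw [mem_aroots] at hz'
  have h1 : minpoly K⟮ω⟯ z ∣ (minpoly K z).map (algebraMap K K⟮ω⟯) :=
    minpoly.dvd_map_of_isScalarTower K K⟮ω⟯ z
  have h2 : aeval z' (minpoly K z) = 0 := by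
    obtain ⟨q, hq⟩ := h1
    have h3 := congrArg (aeval z') hq
    rw [map_mul, hz'.2, zero_mul, aeval_map_algebraMap] at h3
    exact h3
  obtain ⟨f1, hf1⟩ : ∃ f1 : K⟮ω⟯[X], f1 = ((minpoly K b).map (algebraMap K K⟮ω⟯)).comp
    (C (AdjoinSimple.gen K ω) - C (T : K⟮ω⟯) * X) := ⟨_, rfl⟩
  have hf1e : ∀ w : M, aeval w f1 = aeval (ω - T * w) (minpoly K b) := by
    intro w
    rw [hf1, aeval_comp, map_sub, aeval_C, map_mul, aeval_C, aeval_X, aeval_map_algebraMap]
    simp
  have h4 : minpoly K⟮ω⟯ z ∣ f1 := by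
    apply minpoly.dvd
    rw [hf1e, hω]
    have : b + T * z - T * z = b := by ring
    rw [this]
    exact minpoly.aeval _ _
  have h5 : aeval (ω - T * z') (minpoly K b) = 0 := by
    rw [← hf1e]
    obtain ⟨q, hq⟩ := h4
    rw [hq, map_mul, hz'.2, zero_mul]
  apply hTB
  rw [hBad, Finset.mem_image]
  refine ⟨(ω - T * z', z'), ?_, ?_⟩
  · rw [Finset.mem_product, Multiset.mem_toFinset, Multiset.mem_toFinset, mem_aroots, mem_aroots]
    exact ⟨⟨minpoly.ne_zero hb, h5⟩, ⟨minpoly.ne_zero hz, h2⟩⟩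
  · have h6 : z - z' ≠ 0 := sub_ne_zero.2 hne.symm
    simp only
    rw [hω, div_eq_iff h6]
    ring

/-- evaluation of `ℚ[X][X]` -/
noncomputable def evQ {M : Type*} [Field M] [Algebra ℚ M] (a b : M) : ℚ[X][X] →+* M :=
  eval₂RingHom (aeval a : ℚ[X] →ₐ[ℚ] M).toRingHom b

lemma evQ_map {M : Type*} [Field M] [Algebra ℚ M] (a b : M) (G : ℤ[X][X]) :
    evQ a b (G.map (mapRingHom (Int.castRingHom ℚ))) = ev a b G := by
  have h1 : (evQ a b).comp (mapRingHom (mapRingHom (Int.castRingHom ℚ))) = ev a b := by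
    apply Polynomial.ringHom_ext'
    · apply Polynomial.ringHom_ext'
      · exact RingHom.ext_int _ _
      · simp [evQ]
    · simp [evQ]
  exact congrArg (fun f : ℤ[X][X] →+* M => f G) h1

lemma ker_evQ {M : Type*} [Field M] [Algebra ℚ M] (a b : M) (ha : Transcendental ℚ a)
    (G : ℚ[X][X]) (hG : Prime G) (hd : G.natDegree ≠ 0) (h0 : evQ a b G = 0) (w : ℚ[X][X]) :
    evQ a b w = 0 ↔ G ∣ w := by
  constructor
  swap
  · rintro ⟨q, rfl⟩
    rw [map_mul, h0, zero_mul]
  intro hw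
  have hinj : Function.Injective (aeval a : ℚ[X] →ₐ[ℚ] M).toRingHom :=
    transcendental_iff_injective.1 ha
  obtain ⟨φ, hφ⟩ : ∃ φ : FractionRing ℚ[X] →+* M, ∀ p : ℚ[X], φ (algebraMap _ _ p) = aeval a p :=
    ⟨IsFractionRing.lift hinj, fun p => IsFractionRing.lift_algebraMap hinj p⟩
  have hev : ∀ v : ℚ[X][X], evQ a b v = eval₂ φ b (v.map (algebraMap ℚ[X] (FractionRing ℚ[X]))) := by
    intro v
    rw [eval₂_map, evQ, coe_eval₂RingHom]
    congr 1
    refine RingHom.ext fun p => ?_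
    exact (hφ p).symm
  have hirr : Irreducible (G.map (algebraMap ℚ[X] (FractionRing ℚ[X]))) :=
    ((Irreducible.isPrimitive hG.irreducible hd).irreducible_iff_irreducible_map_fraction_map).1
      hG.irreducible
  by_contra hnd
  have hnd' : ¬ G.map (algebraMap ℚ[X] (FractionRing ℚ[X])) ∣
      w.map (algebraMap ℚ[X] (FractionRing ℚ[X])) := by
    rintro ⟨q, hq⟩
    obtain ⟨c, hc, q', hq'⟩ : ∃ c : ℚ[X], c ≠ 0 ∧ ∃ q' : ℚ[X][X],
        q'.map (algebraMap ℚ[X] (FractionRing ℚ[X])) = C (algebraMap _ _ c) * q := by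
      obtain ⟨c, hc, h⟩ := IsLocalization.integerNormalization_spec (nonZeroDivisors ℚ[X]) q
      refine ⟨c, nonZeroDivisors.ne_zero hc,
        IsLocalization.integerNormalization (nonZeroDivisors ℚ[X]) q, ?_⟩
      rw [h, ← algebraMap_smul (FractionRing ℚ[X]) c q, smul_eq_C_mul]
    have h1 : C c * w = G * q' := by
      apply Polynomial.map_injective _ (IsFractionRing.injective ℚ[X] (FractionRing ℚ[X]))
      rw [Polynomial.map_mul, Polynomial.map_mul, hq', hq, map_C]
      ring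
    rcases hG.dvd_or_dvd ⟨q', h1⟩ with h2 | h2
    · have h3 := natDegree_le_of_dvd h2 (C_ne_zero.2 hc)
      rw [natDegree_C] at h3
      omega
    · exact hnd h2
  obtain ⟨r, s, hrs⟩ := (hirr.coprime_iff_not_dvd).2 hnd'
  have h1 := congrArg (eval₂ φ b) hrs
  rw [eval₂_add, eval₂_mul, eval₂_mul, ← hev, ← hev, h0, hw, mul_zero, mul_zero, add_zero,
    eval₂_one] at h1
  exact zero_ne_one h1

end Pool.Agent.V8H28.PV
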