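import Pool.Agent.V8H28.DV.Model

/-!
Plane models of the coverings `z ^ ℓ = ρ(α, β)` of a plane curve.
-/

open Polynomial

set_option autoImplicit false

namespace Pool.Agent.V8H28.PV

open Pool.Agent.H322R2 Pool.Agent.V8H28.DV

section pow

variable {R : Type*} [CommRing R]

lemma natDegree_pow_le' (ε : ℤ) (ℓ : ℕ) :
    ((C (X : R[X]) - C (ε : R[X]) * X : R[X][X]) ^ ℓ).natDegree ≤ ℓ := by
  refine natDegree_pow_le.trans ?_
  have h1 : (C (X : R[X]) - C (ε : R[X]) * X : R[X][X]).natDegree ≤ 1 := by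
    refine (natDegree_sub_le _ _).trans (max_le ?_ ?_)
    · rw [natDegree_C]; omega
    · exact (natDegree_C_mul_le _ _).trans natDegree_X_le
  calc ℓ * (C (X : R[X]) - C (ε : R[X]) * X : R[X][X]).natDegree ≤ ℓ * 1 :=
        Nat.mul_le_mul_left _ h1
    _ = ℓ := mul_one _

lemma coeff_pow_le (ε : ℤ) (ℓ j : ℕ) :
    (((C (X : R[X]) - C (ε : R[X]) * X : R[X][X]) ^ ℓ).coeff j).natDegree ≤ ℓ := by
  induction ℓ generalizing j with
  | zero =>
    rw [pow_zero, coeff_one]
    split_ifs <;> simp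
  | succ ℓ ih =>
    rw [pow_succ', sub_mul, coeff_sub, coeff_C_mul, mul_assoc, coeff_C_mul]
    refine (natDegree_sub_le _ _).trans (max_le ?_ ?_)
    · refine natDegree_mul_le.trans ?_
      have := ih j
      have h2 : (X : R[X]).natDegree ≤ 1 := natDegree_X_le
      omega
    · refine natDegree_mul_le.trans ?_
      rw [natDegree_intCast, zero_add]
      cases j with
      | zero => rw [coeff_X_mul_zero]; simp
      | succ j =>
        rw [coeff_X_mul]
        have := ih j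
        omega

end pow

/-- the polynomial defining the coverings -/
noncomputable def VV (ε : ℤ) (T ℓ : ℕ) (ρ : ℤ[X][X]) : ℤ[X][X][X] :=
  (C (X : ℤ[X][X]) - C (ε : ℤ[X][X]) * X) ^ ℓ - C ((T : ℤ[X][X]) ^ ℓ) * ρ.map C

theorem modelPow (GM ρ : ℤ[X][X]) (D D1 K m H1 H2 ℓ T : ℕ) (ε : ℤ) (hε : |ε| ≤ 1) (hℓ : 1 ≤ ℓ)
    (hm : GM.Monic) (hD : GM.natDegree = D) (hD1 : 1 ≤ D) (hp : Prime GM)
    (hGd : ∀ j, (GM.coeff j).natDegree ≤ D1) (hρK : ρ.natDegree ≤ K)
    (hρm : ∀ j, (ρ.coeff j).natDegree ≤ m) (hH1 : pn (pn zn) GM ≤ H1) (hH2 : pn (pn zn) ρ ≤ H2)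
    {M : Type*} [Field M] [CharZero M] (α β z : M)
    (hker : ∀ W : ℤ[X][X], ev α β W = 0 ↔ GM ∣ W) (hz : z ^ ℓ = ev α β ρ)
    (hα : ∀ p : ℤ[X], p ≠ 0 → evf α p ≠ 0) :
    ∃ G : ℤ[X][X], Prime G ∧ 1 ≤ G.natDegree ∧ G.natDegree ≤ D * ℓ ∧
      (∀ j, (G.coeff j).natDegree ≤ D * (m + D1 * (ℓ + K))) ∧
      pn (pn zn) G ≤ (((D * ℓ + 1) * ((D * (m + D1 * (ℓ + K)) + 1) *
        (2 ^ ((D * (m + D1 * (ℓ + K)) + 1) * (D * ℓ + 1)) *
          (((D * (m + D1 * (ℓ + K)) + 1) * (D * ℓ + 1) + 1) *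
          (D.factorial * ((2 ^ ℓ + T ^ ℓ * H2) * (1 + H1) ^ (ℓ + K)) ^ D)))) : ℕ) : ℝ) ∧
      ev α (ε * β + T * z) G = 0 ∧
      ((∀ r : ℤ[X][X][X], r.natDegree < ℓ → eval₂ (ev α β) z r = 0 →
          ∀ i, ev α β (r.coeff i) = 0) →
        ∀ a b z1 : ℤ, ev a b GM = 0 → z1 ^ ℓ = ev a b ρ → ev a (ε * b + T * z1) G = 0) := by
  have hD0 : 0 < D := hD1
  obtain ⟨ω, hω⟩ : ∃ ω, ω = ε * β + T * z := ⟨_, rfl⟩
  obtain ⟨F', hF'⟩ : ∃ F' : ℤ[X][X][X], F' = GM.map C := ⟨_, rfl⟩
  obtain ⟨V, hV⟩ : ∃ V : ℤ[X][X][X], V = VV ε T ℓ ρ := ⟨_, rfl⟩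
  have hF'm : F'.Monic := by rw [hF']; exact hm.map _
  have hF'd : F'.natDegree = D := by rw [hF', hm.natDegree_map, hD]
  obtain ⟨Χ, hΧ⟩ : ∃ Χ : ℤ[X][X], Χ = nrm F' D V := ⟨_, rfl⟩
  have hmapC : ∀ W : ℤ[X][X], eval₂ (ev α ω) β (W.map C) = ev α β W := by
    intro W
    rw [eval₂_map, ev_apply]
    congr 1
    refine RingHom.ext fun p => ?_
    simp
  have hfΧ : ev α ω Χ = 0 := by
    have h1 := dvd_nrm (ev α ω) β F' D hD0 hF'm hF'd (by
      rw [hF', hmapC, hker]) V
    have h2 : eval₂ (ev α ω) β V = 0 := by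
      rw [hV, VV, eval₂_sub, eval₂_mul, eval₂_pow, eval₂_sub, eval₂_mul, eval₂_C, eval₂_C, eval₂_C,
        eval₂_X, hmapC, ev_X, map_intCast, map_pow, map_natCast, ← hz, hω]
      ring
    rw [h2, zero_dvd_iff] at h1
    rw [hΧ]; exact h1
  -- `Χ` is nonzero
  have hΧ0 : Χ ≠ 0 := by
    intro h
    have hall : ∀ n : ℕ, eval (n : M) ((X - C ((ε : M) * β)) ^ ℓ - C ((T : M) ^ ℓ * ev α β ρ)) = 0 := by
      intro n
      have h1 := nrm_map (evalRingHom (C (n : ℤ) : ℤ[X])) F' D V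
      rw [← hΧ, h, map_zero] at h1
      have hid : (evalRingHom (C (n : ℤ) : ℤ[X])).comp C = RingHom.id _ := by
        refine RingHom.ext fun a => ?_
        simp
      have h2 : F'.map (evalRingHom (C (n : ℤ) : ℤ[X])) = GM := by
        rw [hF', Polynomial.map_map, hid, Polynomial.map_id]
      obtain ⟨Vn, hVn⟩ : ∃ Vn, Vn = V.map (evalRingHom (C (n : ℤ) : ℤ[X])) := ⟨_, rfl⟩
      rw [h2, ← hVn] at h1
      have h3 : GM ∣ Vn := by
        by_contra hnd
        exact nrm_ne_zero GM D hm hD hp Vn hnd h1.symm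
      have h4 := (hker Vn).2 h3
      have h5 : ev α β Vn = ((n : M) - ε * β) ^ ℓ - (T : M) ^ ℓ * ev α β ρ := by
        rw [hVn, hV, VV, Polynomial.map_sub, Polynomial.map_mul, Polynomial.map_pow,
          Polynomial.map_sub, Polynomial.map_mul, Polynomial.map_map, hid, Polynomial.map_id,
          map_C, map_C, map_C, map_X]
        simp
      rw [h5] at h4
      rw [eval_sub, eval_pow, eval_sub, eval_X, eval_C, eval_C]
      exact h4
    have hne : ((X - C ((ε : M) * β)) ^ ℓ - C ((T : M) ^ ℓ * ev α β ρ)) ≠ 0 := by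
      have h1 : ((X - C ((ε : M) * β)) ^ ℓ).natDegree = ℓ := by
        rw [natDegree_pow, natDegree_X_sub_C, mul_one]
      intro h0
      have h2 := sub_eq_zero.1 h0
      rw [h2, natDegree_C] at h1
      omega
    apply hne
    apply Polynomial.eq_zero_of_infinite_isRoot
    refine Set.Infinite.mono (s := Set.range (fun n : ℕ => (n : M))) ?_
      (Set.infinite_range_of_injective Nat.cast_injective)
    rintro _ ⟨n, rfl⟩
    exact hall n
  -- the prime factor
  obtain ⟨G, hGpr, hGΧ, hfG⟩ : ∃ G, Prime G ∧ G ∣ Χ ∧ ev α ω G = 0 := by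
    obtain ⟨w, hw⟩ := UniqueFactorizationMonoid.factors_prod hΧ0
    rw [← hw, map_mul] at hfΧ
    have h1 : ev α ω (UniqueFactorizationMonoid.factors Χ).prod = 0 := by
      rcases mul_eq_zero.1 hfΧ with h | h
      · exact h
      · exact absurd h ((w.isUnit.map (ev α ω)).ne_zero)
    rw [map_multiset_prod, Multiset.prod_eq_zero_iff, Multiset.mem_map] at h1
    obtain ⟨G, hG, hG0⟩ := h1
    exact ⟨G, UniqueFactorizationMonoid.prime_of_factor G hG,
      UniqueFactorizationMonoid.dvd_of_mem_factors hG, hG0⟩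
  have hnd : 1 ≤ G.natDegree := by
    by_contra hcon
    have h1 : G.natDegree = 0 := by omega
    have h2 := eq_C_of_natDegree_eq_zero h1
    rw [h2, ev_C] at hfG
    have h3 : G.coeff 0 ≠ 0 := by
      intro h
      apply hGpr.ne_zero
      rw [h2, h, C_0]
    exact hα _ h3 hfG
  -- degrees
  have hVK : V.natDegree ≤ ℓ + K := by
    rw [hV, VV]
    refine (natDegree_sub_le _ _).trans (max_le ?_ ?_)
    · exact (natDegree_pow_le' ε ℓ).trans (by omega)
    · refine (natDegree_C_mul_le _ _).trans ?_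
      exact natDegree_map_le.trans (by omega)
  have hΧd : Χ.natDegree ≤ D * ℓ := by
    have h1 : ∀ i j, ((aeval (H322R2.comp F' D) V) i j).natDegree ≤ ℓ := by
      intro i j
      have h2 := natDegree_aeval_comp F' D 0 (fun j => by
        rw [hF', coeff_map, natDegree_C]) V (ℓ + K) ℓ hVK (fun q => by
        rw [hV, VV, coeff_sub, coeff_C_mul, coeff_map]
        refine (natDegree_sub_le _ _).trans (max_le ?_ ?_)
        · exact coeff_pow_le ε ℓ q
        · refine natDegree_mul_le.trans ?_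
          rw [natDegree_C, add_zero]
          refine natDegree_pow_le.trans ?_
          rw [natDegree_natCast, mul_zero]
          omega) i j
      simpa using h2
    have h3 := natDegree_det_le _ ℓ h1
    rw [hΧ, nrm]
    exact h3
  have hΧi : ∀ j, (Χ.coeff j).natDegree ≤ D * (m + D1 * (ℓ + K)) := by
    obtain ⟨sw, hsw⟩ : ∃ sw : ℤ[X][X] →+* ℤ[X][X], ∀ p, sw p = Bivariate.swap (R := ℤ) p :=
      ⟨((Bivariate.swap (R := ℤ) : ℤ[X][X] ≃ₐ[ℤ] ℤ[X][X]) : ℤ[X][X] →+* ℤ[X][X]), fun p => rfl⟩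
    have hsC : ∀ p : ℤ[X], (sw (C p)).natDegree ≤ p.natDegree := by
      intro p
      rw [natDegree_le_iff_coeff_eq_zero]
      intro n hn
      ext i
      rw [hsw, coeff_swap, coeff_zero]
      rw [coeff_C]
      split_ifs
      · exact coeff_eq_zero_of_natDegree_lt hn
      · simp
    have h1 : (sw Χ).natDegree ≤ D * (m + D1 * (ℓ + K)) := by
      have h2 := nrm_map sw F' D V
      rw [← hΧ] at h2
      rw [h2, nrm]
      apply natDegree_det_le
      intro i j
      apply natDegree_aeval_comp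
      · intro j
        rw [coeff_map, hF', coeff_map]
        exact (hsC _).trans (hGd j)
      · exact natDegree_map_le.trans hVK
      · intro q
        have h4 : V.map sw = ((C (X : ℤ[X]) - C (ε : ℤ[X]) * X) ^ ℓ).map C
            - C ((T : ℤ[X][X]) ^ ℓ) * ρ.map (sw.comp C) := by
          rw [hV, VV, Polynomial.map_sub, Polynomial.map_mul, Polynomial.map_pow,
            Polynomial.map_sub, Polynomial.map_mul, Polynomial.map_map, map_C, map_C, map_C, map_X,
            Polynomial.map_pow, Polynomial.map_sub, Polynomial.map_mul, map_C, map_C, map_X,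
            map_pow, map_natCast, map_intCast, map_intCast, hsw, Bivariate.swap_Y]
          simp
        rw [h4, coeff_sub, coeff_C_mul, coeff_map, coeff_map]
        refine (natDegree_sub_le _ _).trans (max_le ?_ ?_)
        · rw [natDegree_C]; omega
        · refine natDegree_mul_le.trans ?_
          have h5 : ((T : ℤ[X][X]) ^ ℓ).natDegree = 0 := by
            have := natDegree_pow_le (p := (T : ℤ[X][X])) (n := ℓ)
            rw [natDegree_natCast, mul_zero] at this
            omega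
          rw [h5, zero_add]
          exact (hsC _).trans (hρm q)
    intro j
    rw [natDegree_le_iff_coeff_eq_zero]
    intro n hn
    have h5 : (sw Χ).coeff n = 0 := coeff_eq_zero_of_natDegree_lt (by omega)
    rw [← coeff_swap, ← hsw, h5, coeff_zero]
  have hΧn : pn (pn zn) Χ ≤ ((D.factorial * ((2 ^ ℓ + T ^ ℓ * H2) * (1 + H1) ^ (ℓ + K)) ^ D : ℕ) : ℝ) := by
    have h1 := nrm_le (pn (pn zn)) pn2_one F' D V (ℓ + K) hVK
    rw [← hΧ] at h1
    refine h1.trans ?_
    push_cast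
    apply mul_le_mul_of_nonneg_left _ (by positivity)
    apply pow_le_pow_left₀ (mul_nonneg (apply_nonneg _ _) (by
      have := apply_nonneg (pn (pn (pn zn))) F'
      positivity))
    have hone : pn (pn (pn zn)) (1 : ℤ[X][X][X]) ≤ 1 := by
      rw [pn_one]; exact pn2_one
    have h2 : pn (pn (pn zn)) V ≤ 2 ^ ℓ + T ^ ℓ * H2 := by
      rw [hV, VV]
      refine (map_sub_le_add _ _ _).trans ?_
      apply add_le_add
      · refine (seminorm_pow_le _ hone _ _).trans ?_
        apply pow_le_pow_left₀ (apply_nonneg _ _)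
        refine (map_sub_le_add _ _ _).trans ?_
        have h3 : pn (pn (pn zn)) (C (X : ℤ[X][X])) ≤ 1 := by
          rw [pn_C, pn_X]; exact pnz_one
        have h4 : pn (pn (pn zn)) (C (ε : ℤ[X][X]) * X) ≤ 1 := by
          refine (map_mul_le_mul _ _ _).trans ?_
          rw [pn_C, pn_X]
          have h5 : pn (pn zn) (ε : ℤ[X][X]) ≤ 1 := by
            have : (ε : ℤ[X][X]) = C (C ε) := by simp
            rw [this, pn_C, pn_C, zn_apply]
            exact_mod_cast hε
          have h6 : 0 ≤ pn (pn zn) (ε : ℤ[X][X]) := apply_nonneg _ _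
          have h7 : 0 ≤ pn (pn zn) (1 : ℤ[X][X]) := apply_nonneg _ _
          have h8 : pn (pn zn) (1 : ℤ[X][X]) ≤ 1 := pn2_one
          calc pn (pn zn) (ε : ℤ[X][X]) * pn (pn zn) (1 : ℤ[X][X]) ≤ 1 * 1 :=
                mul_le_mul h5 h8 h7 (by norm_num)
            _ = 1 := one_mul _
        linarith
      · refine (map_mul_le_mul _ _ _).trans ?_
        rw [pn_C, pn_map_C]
        have h3 : pn (pn zn) ((T : ℤ[X][X]) ^ ℓ) ≤ (T : ℝ) ^ ℓ := by
          refine (seminorm_pow_le _ pn2_one _ _).trans ?_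
          apply pow_le_pow_left₀ (apply_nonneg _ _)
          have : (T : ℤ[X][X]) = C (C (T : ℤ)) := by simp
          rw [this, pn_C, pn_C, zn_apply]
          simp
        exact mul_le_mul h3 hH2 (apply_nonneg _ _) (by positivity)
    have h7 : pn (pn (pn zn)) F' ≤ H1 := by
      rw [hF', pn_map_C]; exact hH1
    have h8 : 0 ≤ pn (pn (pn zn)) F' := apply_nonneg _ _
    apply mul_le_mul h2 (pow_le_pow_left₀ (by linarith) (by linarith) _) (by positivity)
      (by positivity)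
  obtain ⟨hf1, hf2, hf3⟩ := factor_le (D * (m + D1 * (ℓ + K))) (D * ℓ) Χ G hΧ0 hΧd hΧi _ hΧn hGΧ
  refine ⟨G, hGpr, hnd, hf1, hf2, ?_, by rw [← hω]; exact hfG, ?_⟩
  · refine hf3.trans (le_of_eq ?_)
    push_cast
    ring
  · intro hind a b z1 hab hz1
    obtain ⟨Φ, hΦ⟩ : ∃ Φ : ℤ[X][X][X], Φ = eval₂ ((C : ℤ[X][X] →+* ℤ[X][X][X]).comp C)
      (C (C (ε : ℤ[X]) * X) + C ((T : ℤ[X][X])) * X) G := ⟨_, rfl⟩
    have hΦe : ∀ {S : Type _} [CommRing S] (a b c : S),
        eval₂ (ev a b) c Φ = ev a (ε * b + T * c) G := by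
      intro S _ a b c
      rw [hΦ]
      have h1 : (eval₂RingHom (ev a b) c).comp (eval₂RingHom ((C : ℤ[X][X] →+* ℤ[X][X][X]).comp C)
          (C (C (ε : ℤ[X]) * X) + C ((T : ℤ[X][X])) * X)) = ev a (ε * b + T * c) := by
        apply Polynomial.ringHom_ext'
        · refine RingHom.ext fun p => ?_
          simp
        · have h9 : eval₂ (ev a b) c (ε : ℤ[X][X][X]) = ε :=
            map_intCast (eval₂RingHom (ev a b) c) ε
          simp [h9]
      exact congrArg (fun g : ℤ[X][X] →+* S => g G) h1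
    obtain ⟨Ψ, hΨ⟩ : ∃ Ψ : ℤ[X][X][X], Ψ = X ^ ℓ - C ρ := ⟨_, rfl⟩
    have hΨm : Ψ.Monic := by rw [hΨ]; exact monic_X_pow_sub_C _ (by omega)
    have hΨd : Ψ.natDegree = ℓ := by rw [hΨ]; exact natDegree_X_pow_sub_C
    obtain ⟨r, hr⟩ : ∃ r, r = Φ %ₘ Ψ := ⟨_, rfl⟩
    have hdiv : r + Ψ * (Φ /ₘ Ψ) = Φ := by rw [hr]; exact modByMonic_add_div Φ Ψ
    have hrd : r.natDegree < ℓ := by
      rw [hr, ← hΨd]
      apply natDegree_modByMonic_lt _ hΨm
      intro h
      rw [h, natDegree_one] at hΨd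
      omega
    have h1 : eval₂ (ev α β) z r = 0 := by
      have h2 := congrArg (eval₂ (ev α β) z) hdiv
      rw [eval₂_add, eval₂_mul] at h2
      have h3 : eval₂ (ev α β) z Ψ = 0 := by
        rw [hΨ, eval₂_sub, eval₂_pow, eval₂_X, eval₂_C, hz, sub_self]
      have h4 : eval₂ (ev α β) z Φ = 0 := by
        have h5 : eval₂ (ev α β) z Φ = ev α (ε * β + T * z) G := by
          rw [hΦ]
          have h1 : (eval₂RingHom (ev α β) z).comp (eval₂RingHom
              ((C : ℤ[X][X] →+* ℤ[X][X][X]).comp C)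
              (C (C (ε : ℤ[X]) * X) + C ((T : ℤ[X][X])) * X)) = ev α (ε * β + T * z) := by
            apply Polynomial.ringHom_ext'
            · refine RingHom.ext fun p => ?_
              simp
            · simp
              left
              exact map_intCast (eval₂RingHom (ev α β) z) ε
          exact congrArg (fun g : ℤ[X][X] →+* M => g G) h1
        rw [h5, ← hω, hfG]
      rw [h3, zero_mul, add_zero, h4] at h2
      exact h2
    have h2 := hind r hrd h1
    have h3 : eval₂ (ev a b) z1 r = 0 := by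
      rw [eval₂_eq_sum_range]
      apply Finset.sum_eq_zero
      intro i _
      obtain ⟨q, hq⟩ := (hker _).1 (h2 i)
      rw [hq, map_mul, hab, zero_mul, zero_mul]
    have h4 := congrArg (eval₂ (ev a b) z1) hdiv
    rw [eval₂_add, eval₂_mul, h3] at h4
    have h5 : eval₂ (ev a b) z1 Ψ = 0 := by
      rw [hΨ, eval₂_sub, eval₂_pow, eval₂_X, eval₂_C, hz1, sub_self]
    rw [h5, zero_mul, add_zero] at h4
    have h6 := hΦe (S := ℤ) a b z1
    rw [← h4] at h6
    simpa using h6.symm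

end Pool.Agent.V8H28.PV
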