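import Mathlib

/-!
Valuation rings and radicals.
-/

open Polynomial

set_option autoImplicit false

namespace Pool.Agent.V8H28.PV

lemma val_lt_iff {K : Type*} [Field K] (V : ValuationSubring K) (x : K) :
    V.valuation x < 1 ↔ x = 0 ∨ x⁻¹ ∉ V := by
  by_cases hx : x = 0
  · simp [hx]
  · have h1 : V.valuation x ≠ 0 := (Valuation.ne_zero_iff _).2 hx
    rw [or_iff_right hx, ← V.valuation_le_one_iff, map_inv₀, not_le,
      one_lt_inv₀ (zero_lt_iff.2 h1)]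

lemma mem_of_alg {K : Type*} [Field K] [Algebra ℚ K] (V : ValuationSubring K)
    (hV : ∀ q : ℚ, algebraMap ℚ K q ∈ V) (x : K) (hx : IsAlgebraic ℚ x) : x ∈ V := by
  obtain ⟨p, hp, hpx⟩ := hx.isIntegral
  obtain ⟨g, hg⟩ : ∃ g : ℚ →+* V, ∀ q, ((g q : V) : K) = algebraMap ℚ K q :=
    ⟨(algebraMap ℚ K).codRestrict _ hV, fun q => rfl⟩
  have h1 : IsIntegral V x := by
    refine ⟨p.map g, hp.map g, ?_⟩
    rw [eval₂_map, ← hpx]
    congr 1
    refine RingHom.ext fun q => ?_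
    exact hg q
  obtain ⟨y, hy⟩ := (IsIntegrallyClosed.isIntegral_iff (R := V) (K := K)).1 h1
  rw [← hy]
  exact y.2

lemma val_alg {K : Type*} [Field K] [Algebra ℚ K] (V : ValuationSubring K)
    (hV : ∀ q : ℚ, algebraMap ℚ K q ∈ V) (x : K) (hx : IsAlgebraic ℚ x) (h0 : x ≠ 0) :
    V.valuation x = 1 := by
  have h1 := (V.valuation_le_one_iff x).2 (mem_of_alg V hV x hx)
  have h2 := (V.valuation_le_one_iff x⁻¹).2 (mem_of_alg V hV x⁻¹ hx.inv)
  have h3 : V.valuation x ≠ 0 := (Valuation.ne_zero_iff _).2 h0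
  rw [map_inv₀, inv_le_one₀ (zero_lt_iff.2 h3)] at h2
  exact le_antisymm h1 h2

/-- a real residue field contains no square root of `-1` -/
lemma no_sqrt {K : Type*} [Field K] (A : ValuationSubring K)
    (f : IsLocalRing.ResidueField A →+* ℝ) (t e : K) (he : A.valuation e < 1)
    (hte : t ^ 2 + 1 = e) : False := by
  have heA : e ∈ A := (A.valuation_le_one_iff e).1 he.le
  have h2 : t ^ 2 ∈ A := by
    have : t ^ 2 = e - 1 := by rw [← hte]; ring
    rw [this]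
    exact sub_mem heA (one_mem _)
  have htA : t ∈ A := by
    rw [← A.valuation_le_one_iff] at h2 ⊢
    rw [map_pow] at h2
    by_contra hcon
    rw [not_le] at hcon
    exact absurd h2 (not_le.2 (one_lt_pow₀ hcon (by norm_num)))
  have h3 : (⟨t, htA⟩ : A) ^ 2 + 1 = ⟨e, heA⟩ := Subtype.ext hte
  have h4 : IsLocalRing.residue A ⟨e, heA⟩ = 0 := by
    rw [IsLocalRing.residue_eq_zero_iff, A.valuation_lt_one_iff]
    exact he
  have h5 := congrArg (fun a => f (IsLocalRing.residue A a)) h3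
  simp only [map_add, map_pow, map_one] at h5
  rw [h4, map_zero] at h5
  nlinarith [sq_nonneg (f (IsLocalRing.residue A ⟨t, htA⟩))]

/-- some conjugate of an `ℓ`-th root is close to `1`, another one is not -/
lemma two_conj {M : Type*} [Field M] [Algebra ℚ M] [IsAlgClosed M] (V : ValuationSubring M)
    (hV : ∀ q : ℚ, algebraMap ℚ M q ∈ V) (ℓ : ℕ) (hℓ : 2 ≤ ℓ) (t : M)
    (ht : V.valuation (t ^ ℓ - 1) < 1) :
    ∃ ζ ξ : M, ζ ^ ℓ = 1 ∧ ξ ^ ℓ = 1 ∧ V.valuation (ζ * t - 1) < 1 ∧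
      ¬ V.valuation (ξ * t - 1) < 1 := by
  have : CharZero M := algebraRat.charZero M
  obtain ⟨ε, hε⟩ : ∃ ε : M, IsPrimitiveRoot ε ℓ := by
    have : NeZero (ℓ : M) := ⟨by exact_mod_cast (by omega : ℓ ≠ 0)⟩
    exact HasEnoughRootsOfUnity.exists_primitiveRoot M ℓ
  have hrat : ∀ ζ : M, ζ ^ ℓ = 1 → IsAlgebraic ℚ ζ := by
    intro ζ hζ
    refine ⟨X ^ ℓ - 1, (monic_X_pow_sub_C (1 : ℚ) (by omega : ℓ ≠ 0)).ne_zero, ?_⟩
    simp [hζ]
  have hval : ∀ ζ : M, ζ ^ ℓ = 1 → V.valuation ζ = 1 := by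
    intro ζ hζ
    apply val_alg V hV ζ (hrat ζ hζ)
    rintro rfl
    rw [zero_pow (by omega)] at hζ
    exact zero_ne_one hζ
  have hprod : t ^ ℓ - 1 = ∏ ζ ∈ nthRootsFinset ℓ (1 : M), (t - ζ) := by
    have h1 := X_pow_sub_one_eq_prod (by omega : 0 < ℓ) hε
    have h2 := congrArg (eval t) h1
    rw [eval_prod] at h2
    simpa using h2
  obtain ⟨ζ, hζm, hζ⟩ : ∃ ζ ∈ nthRootsFinset ℓ (1 : M), V.valuation (t - ζ) < 1 := by
    by_contra hcon
    push Not at hcon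
    rw [hprod, map_prod] at ht
    exact absurd ht (not_lt.2 (Finset.one_le_prod' hcon))
  rw [mem_nthRootsFinset (by omega)] at hζm
  have hζ0 : ζ ≠ 0 := by
    rintro rfl
    rw [zero_pow (by omega)] at hζm
    exact zero_ne_one hζm
  have hζi : (ζ⁻¹) ^ ℓ = 1 := by rw [inv_pow, hζm, inv_one]
  have h1 : V.valuation (ζ⁻¹ * t - 1) < 1 := by
    have : ζ⁻¹ * t - 1 = ζ⁻¹ * (t - ζ) := by field_simp
    rw [this, map_mul, hval _ hζi, one_mul]
    exact hζ
  refine ⟨ζ⁻¹, ε * ζ⁻¹, hζi, ?_, h1, ?_⟩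
  · rw [mul_pow, hε.pow_eq_one, hζi, one_mul]
  · intro h2
    have hε1 : ε - 1 ≠ 0 := sub_ne_zero.2 (hε.ne_one (by omega))
    have h3 : V.valuation (ε - 1) = 1 := by
      apply val_alg V hV _ _ hε1
      exact (hrat ε hε.pow_eq_one).sub (isAlgebraic_one)
    have h4 : ε - 1 = (ε * ζ⁻¹ * t - 1) - ε * (ζ⁻¹ * t - 1) := by ring
    have h5 : V.valuation (ε * (ζ⁻¹ * t - 1)) < 1 := by
      rw [map_mul, hval _ hε.pow_eq_one, one_mul]
      exact h1
    have h6 : V.valuation (ε - 1) < 1 := by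
      rw [h4]
      exact (V.valuation.map_sub _ _).trans_lt (max_lt h2 h5)
    rw [h3] at h6
    exact lt_irrefl _ h6

end Pool.Agent.V8H28.PV
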