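import Pool.Agent.V8H28.PV.Cover

/-!
Integer points at which a polynomial takes a perfect power as its value.
-/

open Polynomial IntermediateField

set_option autoImplicit false

namespace Pool.Agent.V8H28.PV

open Pool.Agent.H322R2 Pool.Agent.V8H28.DV

lemma pi_mem {L : Type*} [Field L] [Algebra ℚ L] (π : MvPolynomial (Fin 2) ℚ →ₐ[ℚ] L)
    (B : ValuationSubring L) (hB : ∀ q : ℚ, algebraMap ℚ L q ∈ B) (h0 : π (MvPolynomial.X 0) ∈ B)
    (h1 : π (MvPolynomial.X 1) ∈ B) (w : MvPolynomial (Fin 2) ℚ) : π w ∈ B := by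
  induction w using MvPolynomial.induction_on with
  | C q =>
    rw [← MvPolynomial.algebraMap_eq, π.commutes]
    exact hB q
  | add p q hp hq => rw [map_add]; exact add_mem hp hq
  | mul_X p i hp =>
    rw [map_mul]
    refine mul_mem hp ?_
    fin_cases i
    · exact h0
    · exact h1

/-- a valuation ring of an extension at which a transcendental element is infinite -/
lemma exists_V {M : Type*} [Field M] [Algebra ℚ M] (a : M) (ha : Transcendental ℚ a) :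
    ∃ V : ValuationSubring M, (∀ q : ℚ, algebraMap ℚ M q ∈ V) ∧ a ∉ V := by
  apply exists_val (algebraMap ℚ M) a
  intro W hW h
  exact ha ⟨W, hW.ne_zero, h⟩

/-- the first case: a value which is a perfect power -/
lemma case_pow (ℓ : ℕ) (hℓ : ℓ.Prime) (L M : Type) [Field L] [Algebra ℚ L] [Field M] [Algebra ℚ M]
    [Algebra L M] [IsScalarTower ℚ L M] [IsAlgClosed M] [Normal L M]
    (π : MvPolynomial (Fin 2) ℚ →ₐ[ℚ] L) (q W : L) (z : M)
    (hirr : Irreducible (X ^ ℓ - C q : L[X])) (hz : z ^ ℓ = algebraMap L M q)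
    (hW : ∀ A : ValuationSubring L, (∀ r : ℚ, algebraMap ℚ L r ∈ A) →
      ¬ (π (MvPolynomial.X 0) ∈ A ∧ π (MvPolynomial.X 1) ∈ A) → A.valuation (q / W ^ ℓ - 1) < 1)
    (a : MvPolynomial (Fin 2) ℚ) (K : IntermediateField ℚ M) (A : ValuationSubring K)
    (ha : Transcendental ℚ (π a)) (hLK : ∀ l : L, algebraMap L M l ∈ K) (hzK : z ∈ K)
    (huniq : ∀ A' : ValuationSubring K, (∀ r : ℚ, (r : K) ∈ A') →
      (∀ t : K, (t : M) = algebraMap L M (π a) → t ∉ A') → A' = A) : False := by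
  have hchM : CharZero M := algebraRat.charZero M
  obtain ⟨V, hV, haV⟩ := exists_V (algebraMap L M (π a))
    ((transcendental_algebraMap_iff (algebraMap L M).injective).2 ha)
  -- the place of `L`
  obtain ⟨B, hB⟩ : ∃ B : ValuationSubring L, B = V.comap (algebraMap L M) := ⟨_, rfl⟩
  have hBm : ∀ l : L, l ∈ B ↔ algebraMap L M l ∈ V := by
    intro l
    rw [hB, ValuationSubring.mem_comap]
  have hBQ : ∀ r : ℚ, algebraMap ℚ L r ∈ B := by
    intro r
    rw [hBm, ← IsScalarTower.algebraMap_apply]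
    exact hV r
  have hBv := hW B hBQ (by
    rintro ⟨h0, h1⟩
    exact haV ((hBm _).1 (pi_mem π B hBQ h0 h1 a)))
  have hW0 : W ≠ 0 := by
    rintro rfl
    rw [zero_pow hℓ.ne_zero, div_zero, zero_sub, Valuation.map_neg, map_one] at hBv
    exact lt_irrefl _ hBv
  have hWM : algebraMap L M W ≠ 0 := by
    rwa [Ne, map_eq_zero_iff _ (algebraMap L M).injective]
  obtain ⟨t, ht⟩ : ∃ t : M, t = z / algebraMap L M W := ⟨_, rfl⟩
  have hte : t ^ ℓ - 1 = algebraMap L M (q / W ^ ℓ - 1) := by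
    rw [ht, div_pow, hz, map_sub, map_one, map_div₀, map_pow]
  have hVt : V.valuation (t ^ ℓ - 1) < 1 := by
    rw [hte, val_lt_iff]
    rw [val_lt_iff] at hBv
    rcases hBv with h | h
    · left; rw [h, map_zero]
    · right
      rw [← map_inv₀, ← hBm]
      exact h
  obtain ⟨ζ, ξ, hζ, hξ, h1, h2⟩ := two_conj V hV ℓ hℓ.two_le t hVt
  -- automorphisms
  have hσ : ∀ ζ : M, ζ ^ ℓ = 1 → ∃ σ : M ≃ₐ[L] M, σ z = ζ * z := by
    intro ζ hζ
    have hmin : ∀ w : M, w ^ ℓ = algebraMap L M q → minpoly L w = X ^ ℓ - C q := by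
      intro w hw
      symm
      apply minpoly.eq_of_irreducible_of_monic hirr
      · rw [map_sub, map_pow, aeval_X, aeval_C, hw, sub_self]
      · exact monic_X_pow_sub_C _ hℓ.ne_zero
    have h3 : IsConjRoot L z (ζ * z) := by
      rw [IsConjRoot, hmin z hz, hmin (ζ * z) (by rw [mul_pow, hζ, one_mul, hz])]
    obtain ⟨σ, hσ⟩ := isConjRoot_iff_exists_algEquiv.1 h3
    exact ⟨σ.symm, (AlgEquiv.symm_apply_eq _).2 hσ.symm⟩
  obtain ⟨σ1, hσ1⟩ := hσ ζ hζ
  obtain ⟨σ2, hσ2⟩ := hσ ξ hξ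
  obtain ⟨τ, hτ⟩ : ∃ τ : K, (τ : M) = t - 1 := by
    refine ⟨⟨t - 1, ?_⟩, rfl⟩
    rw [ht]
    exact sub_mem (div_mem hzK (hLK W)) (one_mem K)
  have hσt : ∀ (σ : M ≃ₐ[L] M) (ζ : M), σ z = ζ * z → σ (τ : M) = ζ * t - 1 := by
    intro σ ζ hσ
    rw [hτ, map_sub, map_one, ht, map_div₀, hσ, σ.commutes]
    ring
  have hA : ∀ σ : M ≃ₐ[L] M,
      (V.comap (σ : M →+* M)).comap (algebraMap K M) = A := by
    intro σ
    apply huniq
    · intro r
      rw [ValuationSubring.mem_comap, ValuationSubring.mem_comap, map_ratCast, map_ratCast,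
        ← eq_ratCast (algebraMap ℚ M)]
      exact hV r
    · intro s hs hmem
      rw [ValuationSubring.mem_comap, ValuationSubring.mem_comap] at hmem
      apply haV
      have h3 : (algebraMap K M) s = algebraMap L M (π a) := hs
      rw [h3] at hmem
      have h4 : (σ : M →+* M) (algebraMap L M (π a)) = algebraMap L M (π a) := σ.commutes _
      rwa [h4] at hmem
  have hmemA : ∀ (σ : M ≃ₐ[L] M) (s : K), s ∈ A ↔ σ (s : M) ∈ V := by
    intro σ s
    rw [← hA σ, ValuationSubring.mem_comap, ValuationSubring.mem_comap]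
    rfl
  rw [← hσt σ1 ζ hσ1] at h1
  rw [← hσt σ2 ξ hσ2, val_lt_iff] at h2
  push Not at h2
  have h3 : τ⁻¹ ∈ A := by
    rw [hmemA σ2]
    have : σ2 (((τ⁻¹ : K)) : M) = (σ2 (τ : M))⁻¹ := by
      rw [← map_inv₀]
      rfl
    rw [this]
    exact h2.2
  rw [hmemA σ1] at h3
  have h4 : σ1 (((τ⁻¹ : K)) : M) = (σ1 (τ : M))⁻¹ := by
    rw [← map_inv₀]
    rfl
  rw [h4] at h3
  rw [val_lt_iff] at h1
  rcases h1 with h1 | h1
  · have h5 : (τ : M) = 0 := by
      rwa [map_eq_zero_iff _ σ1.injective] at h1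
    apply h2.1
    rw [h5, map_zero]
  · exact h1 h3

/-- the second case: minus a square -/
lemma case_neg (L M : Type) [Field L] [Algebra ℚ L] [Field M] [Algebra ℚ M]
    [Algebra L M] [IsScalarTower ℚ L M]
    (π : MvPolynomial (Fin 2) ℚ →ₐ[ℚ] L) (q W : L) (z : M) (hz : z ^ 2 = algebraMap L M (-q))
    (hW : ∀ A : ValuationSubring L, (∀ r : ℚ, algebraMap ℚ L r ∈ A) →
      ¬ (π (MvPolynomial.X 0) ∈ A ∧ π (MvPolynomial.X 1) ∈ A) → A.valuation (q / W ^ 2 - 1) < 1)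
    (a : MvPolynomial (Fin 2) ℚ) (K : IntermediateField ℚ M) (A : ValuationSubring K)
    (ha : Transcendental ℚ (π a)) (hLK : ∀ l : L, algebraMap L M l ∈ K) (hzK : z ∈ K)
    (huniq : ∀ A' : ValuationSubring K, (∀ r : ℚ, (r : K) ∈ A') →
      (∀ t : K, (t : M) = algebraMap L M (π a) → t ∉ A') → A' = A)
    (f : IsLocalRing.ResidueField A →+* ℝ) : False := by
  have hchM : CharZero M := algebraRat.charZero M
  obtain ⟨V, hV, haV⟩ := exists_V (algebraMap L M (π a))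
    ((transcendental_algebraMap_iff (algebraMap L M).injective).2 ha)
  obtain ⟨B, hB⟩ : ∃ B : ValuationSubring L, B = V.comap (algebraMap L M) := ⟨_, rfl⟩
  have hBm : ∀ l : L, l ∈ B ↔ algebraMap L M l ∈ V := by
    intro l
    rw [hB, ValuationSubring.mem_comap]
  have hBQ : ∀ r : ℚ, algebraMap ℚ L r ∈ B := by
    intro r
    rw [hBm, ← IsScalarTower.algebraMap_apply]
    exact hV r
  have hBv := hW B hBQ (by
    rintro ⟨h0, h1⟩
    exact haV ((hBm _).1 (pi_mem π B hBQ h0 h1 a)))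
  have hA : V.comap (algebraMap K M) = A := by
    apply huniq
    · intro r
      rw [ValuationSubring.mem_comap, map_ratCast, ← eq_ratCast (algebraMap ℚ M)]
      exact hV r
    · intro s hs hmem
      rw [ValuationSubring.mem_comap] at hmem
      have h3 : (algebraMap K M) s = algebraMap L M (π a) := hs
      rw [h3] at hmem
      exact haV hmem
  obtain ⟨t, ht⟩ : ∃ t : K, (t : M) = z / algebraMap L M W := ⟨⟨_, div_mem hzK (hLK W)⟩, rfl⟩
  obtain ⟨e, he⟩ : ∃ e : K, (e : M) = algebraMap L M (-(q / W ^ 2 - 1)) := ⟨⟨_, hLK _⟩, rfl⟩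
  apply no_sqrt A f t e
  · rw [val_lt_iff]
    rw [val_lt_iff] at hBv
    rcases hBv with h | h
    · left
      apply Subtype.ext
      rw [he, h, neg_zero, map_zero]
      rfl
    · right
      rw [← hA, ValuationSubring.mem_comap]
      have h1 : (algebraMap K M) e⁻¹ = (algebraMap L M (-(q / W ^ 2 - 1)))⁻¹ := by
        rw [map_inv₀]
        congr 1
      rw [h1, ← map_inv₀, ← hBm, inv_neg, neg_mem_iff]
      exact h
  · apply Subtype.ext
    show (t : M) ^ 2 + 1 = (e : M)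
    rw [ht, he, div_pow, hz, map_neg, map_neg, map_sub, map_one, map_div₀, map_pow]
    ring

theorem main1 (d D ℓ : ℕ) (hD : 1 ≤ D) (hℓ : ℓ.Prime) : ∃ Cc : ℕ,
    ∀ F Q : MvPolynomial (Fin 2) ℤ,
    F.totalDegree = D → Q.totalDegree ≤ d →
    Irreducible (MvPolynomial.map (Int.castRingHom ℚ) F) →
    ∀ (L : Type) [Field L] [Algebra ℚ L] (π : MvPolynomial (Fin 2) ℚ →ₐ[ℚ] L),
    (∀ w, π w = 0 ↔ MvPolynomial.map (Int.castRingHom ℚ) F ∣ w) →
    (∀ z : L, ∃ w1 w2, π w2 ≠ 0 ∧ π w2 * z = π w1) →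
    ∀ W : L, (∀ w : L, w ^ ℓ ≠ π (MvPolynomial.map (Int.castRingHom ℚ) Q)) →
    (∀ A : ValuationSubring L, (∀ r : ℚ, algebraMap ℚ L r ∈ A) →
      ¬ (π (MvPolynomial.X 0) ∈ A ∧ π (MvPolynomial.X 1) ∈ A) →
      A.valuation (π (MvPolynomial.map (Int.castRingHom ℚ) Q) / W ^ ℓ - 1) < 1) →
    ∀ x y z : ℤ, MvPolynomial.eval ![x, y] F = 0 → |MvPolynomial.eval ![x, y] Q| = |z| ^ ℓ →
      (x.natAbs ≤ (Cc * (len F * len Q)) ^ Cc ∧ y.natAbs ≤ (Cc * (len F * len Q)) ^ Cc) := by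
  obtain ⟨C1, hC1⟩ := cover d D ℓ hD hℓ.two_le
  obtain ⟨C2, c2, hC2⟩ := Pool.Agent.Y910.G.main D
  refine ⟨C1 + C2, ?_⟩
  intro F Q hFD hQd hirr L _ _ π hker hsurj W hQp hW x y z hF hQ
  have hQ0 : Q ≠ 0 := by
    rintro rfl
    apply hQp 0
    rw [map_zero, map_zero, zero_pow hℓ.ne_zero]
  have hF0 : F ≠ 0 := by
    rintro rfl
    rw [map_zero] at hirr
    exact hirr.ne_zero rfl
  have hE1 : 1 ≤ len F * len Q := Nat.mul_pos (len_pos' hF0) (len_pos' hQ0)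
  have fin1 : ∀ n : ℕ, n ≤ (C1 * (len F * len Q)) ^ C1 →
      n ≤ ((C1 + C2) * (len F * len Q)) ^ (C1 + C2) := fun n hn => hn.trans (pb_mono (by omega) hE1)
  obtain ⟨q, hq⟩ : ∃ q, q = π (MvPolynomial.map (Int.castRingHom ℚ) Q) := ⟨_, rfl⟩
  rw [← hq] at hQp hW
  let M := AlgebraicClosure L
  -- a perfect power
  have hpow : ∀ z1 : ℤ, MvPolynomial.eval ![x, y] Q = z1 ^ ℓ →
      (x.natAbs ≤ ((C1 + C2) * (len F * len Q)) ^ (C1 + C2) ∧
        y.natAbs ≤ ((C1 + C2) * (len F * len Q)) ^ (C1 + C2)) := by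
    intro z1 hz1
    obtain ⟨zM, hzM⟩ : ∃ zM : M, zM ^ ℓ = algebraMap L M q :=
      IsAlgClosed.exists_pow_nat_eq _ hℓ.pos
    have hirrq : Irreducible (X ^ ℓ - C q : L[X]) := X_pow_sub_C_irreducible_of_prime hℓ hQp
    rcases hC1 F Q hFD hQd hQ0 hirr L π hker hsurj (by rw [← hq]; exact hirrq) M zM
      (by rw [← hq]; exact hzM) x y z1 hF hz1 with h | ⟨a, K, A, ha, hLK, hzK, huniq, -⟩
    · exact ⟨fin1 _ h.1, fin1 _ h.2⟩
    · exact (case_pow ℓ hℓ L M π q W zM hirrq hzM hW a K A ha hLK hzK huniq).elim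
  rcases le_or_gt 0 (MvPolynomial.eval ![x, y] Q) with hpos | hneg
  · apply hpow |z|
    rw [← hQ, abs_of_nonneg hpos]
  rcases hℓ.eq_two_or_odd' with h2 | hodd
  · -- minus a square
    subst h2
    have hQn : MvPolynomial.eval ![x, y] (-Q) = z ^ 2 := by
      rw [map_neg, ← sq_abs z, ← hQ, abs_of_neg hneg]
    have hlenn : len (-Q) = len Q := by
      rw [len, len, MvPolynomial.support_neg]
      apply Finset.sum_congr rfl
      intro m _
      rw [MvPolynomial.coeff_neg, Int.natAbs_neg]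
    have hqn : π (MvPolynomial.map (Int.castRingHom ℚ) (-Q)) = -q := by
      rw [map_neg, map_neg, hq]
    by_cases hsq : ∀ w : L, w ^ 2 ≠ -q
    · obtain ⟨zM, hzM⟩ : ∃ zM : M, zM ^ 2 = algebraMap L M (-q) :=
        IsAlgClosed.exists_pow_nat_eq _ (by norm_num)
      have hirrq : Irreducible (X ^ 2 - C (-q) : L[X]) :=
        X_pow_sub_C_irreducible_of_prime hℓ hsq
      rcases hC1 F (-Q) hFD (by rw [MvPolynomial.totalDegree_neg]; exact hQd) (neg_ne_zero.2 hQ0)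
        hirr L π hker hsurj (by rw [hqn]; exact hirrq) M zM
        (by rw [hqn]; exact hzM) x y z hF hQn with h | ⟨a, K, A, ha, hLK, hzK, huniq, ⟨f⟩⟩
      · rw [hlenn] at h
        exact ⟨fin1 _ h.1, fin1 _ h.2⟩
      · exact (case_neg L M π q W zM hzM hW a K A ha hLK hzK huniq f).elim
    · push Not at hsq
      obtain ⟨w, hw⟩ := hsq
      rcases hC2 F hFD hirr L π hker hsurj x y hF with h | ⟨A, hA, g, hg1, hg2, ⟨hres⟩, η, hη, -⟩
      · have h3 : ∀ n : ℕ, n ≤ (C2 * len F) ^ C2 →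
            n ≤ ((C1 + C2) * (len F * len Q)) ^ (C1 + C2) := by
          intro n hn
          refine hn.trans (le_trans ?_ (pb_mono (a := C2) (by omega) hE1))
          apply Nat.pow_le_pow_left
          apply Nat.mul_le_mul_left
          exact Nat.le_mul_of_pos_right _ (len_pos' hQ0)
        exact ⟨h3 _ h.1, h3 _ h.2⟩
      · exfalso
        have hinf := (hA A).2 rfl
        apply no_sqrt A ((AdjoinRoot.lift (algebraMap ℚ ℝ) η hη).comp (hres : _ →+* _)) (w / W)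
          (-(q / W ^ 2 - 1))
        · rw [Valuation.map_neg]
          exact hW A hinf.1 hinf.2
        · rw [div_pow, hw]
          ring
  · apply hpow (-|z|)
    rw [hodd.neg_pow, ← hQ, abs_of_neg hneg, neg_neg]

theorem main2 (d ℓ : ℕ) (hℓ : ℓ.Prime) : ∃ Cc : ℕ,
    ∀ F Q : MvPolynomial (Fin 2) ℤ,
    F.totalDegree ≤ d → Q.totalDegree ≤ d →
    Irreducible (MvPolynomial.map (Int.castRingHom ℚ) F) →
    ∀ (L : Type) [Field L] [Algebra ℚ L] (π : MvPolynomial (Fin 2) ℚ →ₐ[ℚ] L),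
    (∀ w, π w = 0 ↔ MvPolynomial.map (Int.castRingHom ℚ) F ∣ w) →
    (∀ z : L, ∃ w1 w2, π w2 ≠ 0 ∧ π w2 * z = π w1) →
    ∀ W : L, (∀ w : L, w ^ ℓ ≠ π (MvPolynomial.map (Int.castRingHom ℚ) Q)) →
    (∀ A : ValuationSubring L, (∀ r : ℚ, algebraMap ℚ L r ∈ A) →
      ¬ (π (MvPolynomial.X 0) ∈ A ∧ π (MvPolynomial.X 1) ∈ A) →
      A.valuation (π (MvPolynomial.map (Int.castRingHom ℚ) Q) / W ^ ℓ - 1) < 1) →
    ∀ x y z : ℤ, MvPolynomial.eval ![x, y] F = 0 → |MvPolynomial.eval ![x, y] Q| = |z| ^ ℓ →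
      (x.natAbs ≤ (Cc * (len F * len Q)) ^ Cc ∧ y.natAbs ≤ (Cc * (len F * len Q)) ^ Cc) := by
  have h1 : ∀ D : ℕ, ∃ Cc : ℕ, 1 ≤ D → ∀ F Q : MvPolynomial (Fin 2) ℤ,
      F.totalDegree = D → Q.totalDegree ≤ d →
      Irreducible (MvPolynomial.map (Int.castRingHom ℚ) F) →
      ∀ (L : Type) [Field L] [Algebra ℚ L] (π : MvPolynomial (Fin 2) ℚ →ₐ[ℚ] L),
      (∀ w, π w = 0 ↔ MvPolynomial.map (Int.castRingHom ℚ) F ∣ w) →
      (∀ z : L, ∃ w1 w2, π w2 ≠ 0 ∧ π w2 * z = π w1) →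
      ∀ W : L, (∀ w : L, w ^ ℓ ≠ π (MvPolynomial.map (Int.castRingHom ℚ) Q)) →
      (∀ A : ValuationSubring L, (∀ r : ℚ, algebraMap ℚ L r ∈ A) →
        ¬ (π (MvPolynomial.X 0) ∈ A ∧ π (MvPolynomial.X 1) ∈ A) →
        A.valuation (π (MvPolynomial.map (Int.castRingHom ℚ) Q) / W ^ ℓ - 1) < 1) →
      ∀ x y z : ℤ, MvPolynomial.eval ![x, y] F = 0 → |MvPolynomial.eval ![x, y] Q| = |z| ^ ℓ →
        (x.natAbs ≤ (Cc * (len F * len Q)) ^ Cc ∧ y.natAbs ≤ (Cc * (len F * len Q)) ^ Cc) := by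
    intro D
    by_cases hD : 1 ≤ D
    · obtain ⟨C, hC⟩ := main1 d D ℓ hD hℓ
      exact ⟨C, fun _ => hC⟩
    · exact ⟨0, fun h => absurd h hD⟩
  choose Cc hCc using h1
  refine ⟨∑ D ∈ Finset.range (d + 1), Cc D, ?_⟩
  intro F Q hFd hQd hirr L _ _ π hker hsurj W hQp hW x y z hF hQ
  have hD1 : 1 ≤ F.totalDegree := Pool.Agent.Y910.G.totalDegree_pos F hirr
  have h2 := hCc F.totalDegree hD1 F Q rfl hQd hirr L π hker hsurj W hQp hW x y z hF hQ
  have hQ0 : Q ≠ 0 := by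
    rintro rfl
    apply hQp 0
    rw [map_zero, map_zero, zero_pow hℓ.ne_zero]
  have hF0 : F ≠ 0 := by
    rintro rfl
    rw [map_zero] at hirr
    exact hirr.ne_zero rfl
  have hE1 : 1 ≤ len F * len Q := Nat.mul_pos (len_pos' hF0) (len_pos' hQ0)
  have h3 : Cc F.totalDegree ≤ ∑ D ∈ Finset.range (d + 1), Cc D :=
    Finset.single_le_sum (f := Cc) (fun _ _ => Nat.zero_le _) (Finset.mem_range.2 (by omega))
  exact ⟨h2.1.trans (pb_mono h3 hE1), h2.2.trans (pb_mono h3 hE1)⟩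

end Pool.Agent.V8H28.PV
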