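import Pool.Agent.V8H28.PV.Alg
import Pool.Agent.V8H28.DV.Irr

/-!
Generators of the function field of a covering.
-/

open Polynomial IntermediateField

set_option autoImplicit false

namespace Pool.Agent.V8H28.PV

open Pool.Agent.H322R2 Pool.Agent.V8H28.DV

lemma evf_ne_zero {M : Type*} [Field M] [Algebra ℚ M] (a : M) (ha : Transcendental ℚ a)
    (p : ℤ[X]) (hp : p ≠ 0) : evf a p ≠ 0 := by
  intro h
  apply ha
  refine ⟨p.map (Int.castRingHom ℚ), ?_, ?_⟩
  · rwa [Ne, Polynomial.map_eq_zero_iff (RingHom.injective_int _)]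
  · rw [aeval_def, eval₂_map]
    have h1 : (algebraMap ℚ M).comp (Int.castRingHom ℚ) = Int.castRingHom M := RingHom.ext_int _ _
    rw [h1]
    exact h

lemma exists_T {M : Type*} [Field M] [Algebra ℚ M] [IsAlgClosed M] (a b z : M)
    (ha : Transcendental ℚ a) (GM G0 : ℤ[X][X]) (hm : GM.Monic) (h1 : ev a b GM = 0)
    (hG0 : G0 ≠ 0) (h2 : ev a z G0 = 0) (m n : ℕ) (hm' : GM.natDegree ≤ m)
    (hn : G0.natDegree ≤ n) :
    ∃ T : ℕ, T ≤ m * n ∧ z ∈ IntermediateField.adjoin ℚ {a, b + T * z} := by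
  have : CharZero M := algebraRat.charZero M
  obtain ⟨K0, hK0⟩ : ∃ K0 : IntermediateField ℚ M, K0 = IntermediateField.adjoin ℚ {a} := ⟨_, rfl⟩
  have haK : a ∈ K0 := by
    rw [hK0]; exact IntermediateField.subset_adjoin _ _ rfl
  obtain ⟨κ, hκ⟩ : ∃ κ : ℤ[X] →+* K0, κ = evf (⟨a, haK⟩ : K0) := ⟨_, rfl⟩
  have hκc : (algebraMap K0 M).comp κ = evf a := by
    refine RingHom.ext fun p => ?_
    rw [hκ, RingHom.comp_apply, map_evf]
    rfl
  have hκi : Function.Injective κ := by
    rw [injective_iff_map_eq_zero]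
    intro p hp
    by_contra hp0
    apply evf_ne_zero a ha p hp0
    rw [← hκc, RingHom.comp_apply, hp, map_zero]
  have hb1 : aeval b (GM.map κ) = 0 := by
    rw [aeval_def, eval₂_map, hκc]; exact h1
  have hz1 : aeval z (G0.map κ) = 0 := by
    rw [aeval_def, eval₂_map, hκc]; exact h2
  have hG0' : G0.map κ ≠ 0 := by
    rwa [Ne, Polynomial.map_eq_zero_iff hκi]
  have hbi : IsIntegral K0 b := ⟨GM.map κ, hm.map κ, hb1⟩
  have hza : IsAlgebraic K0 z := ⟨G0.map κ, hG0', hz1⟩
  have hzi : IsIntegral K0 z := hza.isIntegral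
  have hbd : (minpoly K0 b).natDegree ≤ m := by
    have h3 := minpoly.min K0 b (hm.map κ) hb1
    exact (natDegree_le_natDegree h3).trans (natDegree_map_le.trans hm')
  have hzd : (minpoly K0 z).natDegree ≤ n := by
    have h3 := minpoly.degree_le_of_ne_zero K0 z hG0' hz1
    exact (natDegree_le_natDegree h3).trans (natDegree_map_le.trans hn)
  obtain ⟨T, hT, hz⟩ := exists_prim (K := K0) b z hbi hzi m n hbd hzd
  refine ⟨T, hT, ?_⟩
  have hle : K0 ≤ IntermediateField.adjoin ℚ {a, b + T * z} := by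
    rw [hK0]
    apply IntermediateField.adjoin.mono
    simp
  have h3 : IntermediateField.adjoin K0 {b + T * z} ≤ IntermediateField.extendScalars hle := by
    rw [IntermediateField.adjoin_le_iff]
    rintro w hw
    rw [Set.mem_singleton_iff] at hw
    subst hw
    show _ ∈ IntermediateField.extendScalars hle
    rw [IntermediateField.mem_extendScalars]
    apply IntermediateField.subset_adjoin
    simp
  exact h3 hz

lemma prime_map (G : ℤ[X][X]) (hG : Prime G) (hd : 1 ≤ G.natDegree) :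
    Prime (G.map (mapRingHom (Int.castRingHom ℚ))) := by
  have h1 := irr_of_prime G hG hd
  have h2 := toB_map ℤ (Int.castRingHom ℚ) ((toB ℤ).symm G)
  rw [AlgEquiv.apply_symm_apply] at h2
  have h3 : Irreducible (toB ℚ (MvPolynomial.map (Int.castRingHom ℚ) ((toB ℤ).symm G))) :=
    (MulEquiv.irreducible_iff (toB ℚ)).2 h1
  rw [h2] at h3
  exact h3.prime

lemma inj_mapRingHom : Function.Injective (mapRingHom (Int.castRingHom ℚ)) :=
  Polynomial.map_injective _ (RingHom.injective_int _)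

/-- the kernel of the evaluation at a generic point of a monic curve -/
lemma ker_monic {M : Type*} [Field M] [Algebra ℚ M] (a b : M) (ha : Transcendental ℚ a)
    (G : ℤ[X][X]) (hG : Prime G) (hm : G.Monic) (hd : 1 ≤ G.natDegree) (h0 : ev a b G = 0)
    (W : ℤ[X][X]) : ev a b W = 0 ↔ G ∣ W := by
  rw [← evQ_map, ker_evQ a b ha _ (prime_map G hG hd) (by
    rw [natDegree_map_eq_of_injective inj_mapRingHom]; omega) (by rw [evQ_map]; exact h0)]
  exact Polynomial.map_dvd_map _ inj_mapRingHom hm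

/-- evaluation of polynomials in two variables -/
lemma evQ_toB {M : Type*} [Field M] [Algebra ℚ M] (a b : M) (w : MvPolynomial (Fin 2) ℚ) :
    evQ a b (toB ℚ w) = MvPolynomial.aeval ![b, a] w := by
  have h1 : (evQ a b).comp (toB ℚ : MvPolynomial (Fin 2) ℚ →+* ℚ[X][X])
      = (MvPolynomial.aeval ![b, a] : MvPolynomial (Fin 2) ℚ →ₐ[ℚ] M).toRingHom := by
    apply MvPolynomial.ringHom_ext
    · intro r
      simp [evQ]
    · intro i
      fin_cases i
      · simp [evQ]
      · simp [evQ]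
  exact congrArg (fun g : MvPolynomial (Fin 2) ℚ →+* M => g w) h1

/-- the plane curve with function field `ℚ(a, b)` -/
lemma ker_gen {M : Type*} [Field M] [Algebra ℚ M] (a b : M) (ha : Transcendental ℚ a)
    (G : ℤ[X][X]) (hG : Prime G) (hd : 1 ≤ G.natDegree) (h0 : ev a b G = 0)
    (w : MvPolynomial (Fin 2) ℚ) : MvPolynomial.aeval ![b, a] w = 0 ↔
      MvPolynomial.map (Int.castRingHom ℚ) ((toB ℤ).symm G) ∣ w := by
  rw [← evQ_toB, ker_evQ a b ha _ (prime_map G hG hd) (by
    rw [natDegree_map_eq_of_injective inj_mapRingHom]; omega) (by rw [evQ_map]; exact h0)]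
  have h2 := toB_map ℤ (Int.castRingHom ℚ) ((toB ℤ).symm G)
  rw [AlgEquiv.apply_symm_apply] at h2
  rw [← h2]
  constructor
  · intro h
    have h1 := _root_.map_dvd (toB ℚ).symm h
    rwa [AlgEquiv.symm_apply_apply, AlgEquiv.symm_apply_apply] at h1
  · intro h
    exact _root_.map_dvd (toB ℚ) h

lemma frac_gen {M : Type*} [Field M] [Algebra ℚ M] (a b : M)
    (z : M) (hz : z ∈ IntermediateField.adjoin ℚ {a, b}) :
    ∃ w1 w2 : MvPolynomial (Fin 2) ℚ, MvPolynomial.aeval ![b, a] w2 ≠ 0 ∧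
      MvPolynomial.aeval ![b, a] w2 * z = MvPolynomial.aeval ![b, a] w1 := by
  have hadj : ∀ r ∈ Algebra.adjoin ℚ ({a, b} : Set M), ∃ w : MvPolynomial (Fin 2) ℚ,
      MvPolynomial.aeval ![b, a] w = r := by
    intro r hr
    have h1 : Algebra.adjoin ℚ ({a, b} : Set M) ≤ (MvPolynomial.aeval ![b, a] :
        MvPolynomial (Fin 2) ℚ →ₐ[ℚ] M).range := by
      rw [Algebra.adjoin_le_iff]
      rintro w hw
      rcases hw with rfl | hw
      · exact ⟨MvPolynomial.X 1, by simp⟩
      · rw [Set.mem_singleton_iff] at hw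
        subst hw
        exact ⟨MvPolynomial.X 0, by simp⟩
    exact h1 hr
  rw [IntermediateField.mem_adjoin_iff_div] at hz
  obtain ⟨r, hr, s, hs, hrs⟩ := hz
  by_cases hs0 : s = 0
  · refine ⟨0, 1, by simp, ?_⟩
    rw [hrs, hs0]
    simp
  · obtain ⟨w1, hw1⟩ := hadj r hr
    obtain ⟨w2, hw2⟩ := hadj s hs
    refine ⟨w1, w2, by rwa [hw2], ?_⟩
    rw [hw1, hw2, hrs]
    field_simp

end Pool.Agent.V8H28.PV
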